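import Mathlib

namespace Pool.Agent.Lib.MP_c55a01_nt

/-- The `k`-kernel of a sequence: all subsequences `n ↦ a (k^e n + j)` with `0 ≤ j < k^e`. -/
def kernel (k : ℕ) (a : ℕ → ℤ) : Set (ℕ → ℤ) :=
  {b | ∃ e j : ℕ, j < k ^ e ∧ b = fun n => a (k ^ e * n + j)}

/-- `a` is `k`-automatic: finitely many values and a finite `k`-kernel. -/
def IsKAutomatic (k : ℕ) (a : ℕ → ℤ) : Prop :=
  (Set.range a).Finite ∧ (kernel k a).Finite

/-- `a` is automatic: `k`-automatic for some `k ≥ 2`. -/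
def IsAutomatic (a : ℕ → ℤ) : Prop :=
  ∃ k : ℕ, 2 ≤ k ∧ IsKAutomatic k a

/-- `r 0 = 0`, `r 1 = 1`, `r n = a n * r (n-1) + r (n-2)` for `n ≥ 2`. -/
def recSeq (a : ℕ → ℤ) : ℕ → ℤ
  | 0 => 0
  | 1 => 1
  | n + 2 => a (n + 2) * recSeq a (n + 1) + recSeq a n

end Pool.Agent.Lib.MP_c55a01_nt
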