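import Pool.Agent.Lib.MP_c55a01_nt.Defs

namespace Pool.Agent.Lib.MP_c55a01_nt

/-- A sequence produced by a finite automaton reading digits most significant first
has a finite kernel. -/
theorem automatic_of_state {Q : Type} [Finite Q] (k : ℕ) (hk : 0 < k) (s : ℕ → Q) (δ : Q → ℕ → Q)
    (hs : ∀ m i, i < k → s (k * m + i) = δ (s m) i) (τ : Q → ℤ) :
    IsKAutomatic k (fun n => τ (s n)) := by
  have key : ∀ e j, j < k ^ e → ∃ φ : Q → Q, ∀ n, s (k ^ e * n + j) = φ (s n) := by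
    intro e
    induction e with
    | zero =>
      intro j hj
      refine ⟨id, fun n => ?_⟩
      have : j = 0 := by simpa using hj
      simp [this]
    | succ e ih =>
      intro j hj
      have h1 : j / k < k ^ e := by
        rw [Nat.div_lt_iff_lt_mul hk]; rwa [pow_succ] at hj
      obtain ⟨φ, hφ⟩ := ih (j / k) h1
      refine ⟨fun q => δ (φ q) (j % k), fun n => ?_⟩
      have h2 : k ^ (e + 1) * n + j = k * (k ^ e * n + j / k) + j % k := by
        have := Nat.div_add_mod j k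
        rw [pow_succ]; nlinarith
      rw [h2, hs _ _ (Nat.mod_lt _ hk), hφ]
  constructor
  · refine (Set.finite_range τ).subset ?_
    rintro _ ⟨n, rfl⟩
    exact ⟨s n, rfl⟩
  · refine (Set.finite_range (fun φ : Q → Q => fun n => τ (φ (s n)))).subset ?_
    rintro _ ⟨e, j, hj, rfl⟩
    obtain ⟨φ, hφ⟩ := key e j hj
    exact ⟨φ, funext fun n => by simp [hφ]⟩

/-- Transitions: state 0 is the word of zeros, 1 is the number one, 2 a power of two above one,
3 a non-power with second binary digit 0, and 4 a number with second binary digit 1. -/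
def dl (q : Fin 5) (i : ℕ) : Fin 5 :=
  if q = 0 then (if i = 0 then 0 else 1)
  else if q = 1 then (if i = 0 then 2 else 4)
  else if q = 2 then (if i = 0 then 2 else 3)
  else q

def st (n : ℕ) : Fin 5 :=
  if _h : n = 0 then 0 else dl (st (n / 2)) (n % 2)
termination_by n
decreasing_by omega

theorem st_zero : st 0 = 0 := by rw [st]; simp

theorem st_eq (n : ℕ) : st n = dl (st (n / 2)) (n % 2) := by
  by_cases h : n = 0
  · subst h; simp [st_zero, dl]
  · rw [st]; simp [h]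

theorem st_one : st 1 = 1 := by rw [st_eq]; simp [st_zero, dl]

theorem st_int (j : ℕ) : st (2 * 2 ^ j) = 2 ∧
    (∀ m, 2 * 2 ^ j < m → m < 3 * 2 ^ j → st m = 3) ∧
    (∀ m, 3 * 2 ^ j ≤ m → m < 4 * 2 ^ j → st m = 4) := by
  induction j with
  | zero =>
    refine ⟨?_, ?_, ?_⟩
    · rw [st_eq]; simp [st_one, dl]
    · intro m h1 h2; omega
    · intro m h1 h2
      have : m = 3 := by omega
      subst this
      rw [st_eq]; simp [st_one, dl]
  | succ j ih =>
    obtain ⟨h1, h2, h3⟩ := ih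
    rw [pow_succ]
    refine ⟨?_, ?_, ?_⟩
    · rw [st_eq]
      have e1 : 2 * (2 ^ j * 2) / 2 = 2 * 2 ^ j := by omega
      have e2 : 2 * (2 ^ j * 2) % 2 = 0 := by omega
      rw [e1, e2, h1]; simp [dl]
    · intro m hm1 hm2
      rw [st_eq]
      by_cases h : m / 2 = 2 * 2 ^ j
      · have e2 : m % 2 = 1 := by omega
        rw [h, e2, h1]; simp [dl]
      · rw [h2 (m / 2) (by omega) (by omega)]; simp [dl]
    · intro m hm1 hm2
      rw [st_eq, h3 (m / 2) (by omega) (by omega)]; simp [dl]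

def out (q : Fin 5) : ℤ := if q = 3 then -1 else 1

def bb (m : ℕ) : ℤ := out (st m)

theorem bb_cases (m : ℕ) : bb m = 1 ∨ bb m = -1 := by
  unfold bb out; split_ifs <;> simp

def pat (i : ℕ) : ℤ := if i = 2 ∨ i = 3 ∨ i = 4 then -1 else 1

/-- The coefficient sequence. -/
def coef (n : ℕ) : ℤ := bb (n / 6) * pat (n % 6)

theorem coef_cases (n : ℕ) : coef n = 1 ∨ coef n = -1 := by
  unfold coef pat
  rcases bb_cases (n / 6) with h | h <;> rw [h] <;> split_ifs <;> simp

theorem coef_automatic : IsKAutomatic 2 coef := by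
  have h := automatic_of_state (Q := Fin 5 × Fin 6) 2 (by norm_num)
    (fun n => (st (n / 6), ⟨n % 6, Nat.mod_lt _ (by norm_num)⟩))
    (fun q i => (dl q.1 ((2 * q.2.val + i) / 6),
      ⟨(2 * q.2.val + i) % 6, Nat.mod_lt _ (by norm_num)⟩))
    (by
      intro m i hi
      refine Prod.ext ?_ ?_
      · show st ((2 * m + i) / 6) = dl (st (m / 6)) ((2 * (m % 6) + i) / 6)
        rw [st_eq]
        have e1 : (2 * m + i) / 6 / 2 = m / 6 := by omega
        have e2 : (2 * m + i) / 6 % 2 = (2 * (m % 6) + i) / 6 := by omega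
        rw [e1, e2]
      · apply Fin.ext
        show (2 * m + i) % 6 = (2 * (m % 6) + i) % 6
        omega)
    (fun q => out q.1 * pat q.2.val)
  exact h

/-- Partial sums of `bb`. -/
def SS (M : ℕ) : ℤ := ∑ m ∈ Finset.range M, bb m

theorem SS_succ (M : ℕ) : SS (M + 1) = SS M + bb M := Finset.sum_range_succ _ _

theorem bb_zero : bb 0 = 1 := by simp [bb, out, st_zero]
theorem bb_one : bb 1 = 1 := by simp [bb, out, st_one]

theorem SS_block (j : ℕ) (h0 : SS (2 * 2 ^ j) = 2 * j + 2) :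
    (∀ i, i + 1 ≤ 2 ^ j → SS (2 * 2 ^ j + 1 + i) = 2 * j + 3 - i) ∧
    (∀ i, i ≤ 2 ^ j → SS (3 * 2 ^ j + i) = 2 * j + 4 - (2 ^ j : ℕ) + i) := by
  obtain ⟨h1, h2, h3⟩ := st_int j
  have hp : 1 ≤ 2 ^ j := Nat.one_le_two_pow
  have A : ∀ i, i + 1 ≤ 2 ^ j → SS (2 * 2 ^ j + 1 + i) = 2 * j + 3 - i := by
    intro i
    induction i with
    | zero =>
      intro _
      rw [Nat.add_zero, SS_succ, h0]
      simp [bb, h1, out]; ring
    | succ i ih =>
      intro hi
      rw [← Nat.add_assoc, SS_succ, ih (by omega)]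
      have : st (2 * 2 ^ j + 1 + i) = 3 := h2 _ (by omega) (by omega)
      simp [bb, this, out]; ring
  refine ⟨A, ?_⟩
  intro i
  induction i with
  | zero =>
    intro _
    have := A (2 ^ j - 1) (by omega)
    have e : 2 * 2 ^ j + 1 + (2 ^ j - 1) = 3 * 2 ^ j + 0 := by omega
    rw [e] at this
    rw [this]
    have e2 : ((2 ^ j - 1 : ℕ) : ℤ) = ((2 ^ j : ℕ) : ℤ) - 1 := by omega
    rw [e2]; simp; ring
  | succ i ih =>
    intro hi
    rw [← Nat.add_assoc, SS_succ, ih (by omega)]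
    have : st (3 * 2 ^ j + i) = 4 := h3 _ (by omega) (by omega)
    simp [bb, this, out]; ring

theorem SS_pow (j : ℕ) : SS (2 * 2 ^ j) = 2 * j + 2 := by
  induction j with
  | zero =>
    have : SS 2 = 2 := by
      simp [SS, Finset.sum_range_succ, bb_zero, bb_one]
    simpa using this
  | succ j ih =>
    have := (SS_block j ih).2 (2 ^ j) le_rfl
    have e : 2 * 2 ^ (j + 1) = 3 * 2 ^ j + 2 ^ j := by rw [pow_succ]; omega
    rw [e, this]; push_cast; ring

theorem exists_block (M : ℕ) (hM : 3 ≤ M) : ∃ j, 2 * 2 ^ j < M ∧ M ≤ 4 * 2 ^ j := by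
  induction M, hM using Nat.le_induction with
  | base => exact ⟨0, by norm_num, by norm_num⟩
  | succ M hM ih =>
    obtain ⟨j, h1, h2⟩ := ih
    by_cases h : M + 1 ≤ 4 * 2 ^ j
    · exact ⟨j, by omega, h⟩
    · refine ⟨j + 1, ?_, ?_⟩ <;> rw [pow_succ] <;> omega

theorem near_of_nonneg (M : ℕ) (hM : 3 ≤ M) (h : 0 ≤ SS M) :
    ∃ j, M ≤ 2 ^ j + (2 * j + 4) ∧ 2 ^ j ≤ M + (2 * j + 4) := by
  obtain ⟨j, h1, h2⟩ := exists_block M hM
  obtain ⟨A, B⟩ := SS_block j (SS_pow j)
  by_cases hc : M ≤ 3 * 2 ^ j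
  · have := A (M - (2 * 2 ^ j + 1)) (by omega)
    have e : 2 * 2 ^ j + 1 + (M - (2 * 2 ^ j + 1)) = M := by omega
    rw [e] at this
    refine ⟨j + 1, ?_, ?_⟩ <;> rw [pow_succ] <;> omega
  · have := B (M - 3 * 2 ^ j) (by omega)
    have e : 3 * 2 ^ j + (M - 3 * 2 ^ j) = M := by omega
    rw [e] at this
    refine ⟨j + 2, ?_, ?_⟩ <;> rw [pow_succ, pow_succ] <;> omega

theorem pos_of_near (j M : ℕ) (h1 : 3 * 2 ^ j ≤ M) (h2 : M ≤ 4 * 2 ^ j)
    (h3 : 4 * 2 ^ j < M + (2 * j + 4)) : 0 < SS M := by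
  have := (SS_block j (SS_pow j)).2 (M - 3 * 2 ^ j) (by omega)
  have e : 3 * 2 ^ j + (M - 3 * 2 ^ j) = M := by omega
  rw [e] at this
  omega

theorem coef_block (m i : ℕ) (hi : i < 6) : coef (6 * m + i) = bb m * pat i := by
  unfold coef
  have e1 : (6 * m + i) / 6 = m := by omega
  have e2 : (6 * m + i) % 6 = i := by omega
  rw [e1, e2]

theorem rec_step (n : ℕ) :
    recSeq coef (n + 2) = coef (n + 2) * recSeq coef (n + 1) + recSeq coef n := rfl

theorem rec_block (m : ℕ) :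
    recSeq coef (6 * m + 5) = (-1) ^ (m + 1) ∧
    recSeq coef (6 * m + 4) = (-1) ^ (m + 1) * (4 * SS (m + 1) - 1) := by
  induction m with
  | zero =>
    have c2 := coef_block 0 2 (by norm_num)
    have c3 := coef_block 0 3 (by norm_num)
    have c4 := coef_block 0 4 (by norm_num)
    have c5 := coef_block 0 5 (by norm_num)
    simp only [bb_zero, pat] at c2 c3 c4 c5
    norm_num at c2 c3 c4 c5
    have s1 : SS 1 = 1 := by simp [SS, bb_zero]
    have r2 := rec_step 0
    have r3 := rec_step 1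
    have r4 := rec_step 2
    have r5 := rec_step 3
    have r0 : recSeq coef 0 = 0 := rfl
    have r1 : recSeq coef 1 = 1 := rfl
    norm_num [c2, c3, c4, c5, r0, r1] at r2 r3 r4 r5
    norm_num [s1]
    constructor <;> linarith
  | succ m ih =>
    obtain ⟨hx, hy⟩ := ih
    have c0 := coef_block (m + 1) 0 (by norm_num)
    have c1 := coef_block (m + 1) 1 (by norm_num)
    have c2 := coef_block (m + 1) 2 (by norm_num)
    have c3 := coef_block (m + 1) 3 (by norm_num)
    have c4 := coef_block (m + 1) 4 (by norm_num)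
    have c5 := coef_block (m + 1) 5 (by norm_num)
    have r0 := rec_step (6 * m + 4)
    have r1 := rec_step (6 * m + 5)
    have r2 := rec_step (6 * m + 6)
    have r3 := rec_step (6 * m + 7)
    have r4 := rec_step (6 * m + 8)
    have r5 := rec_step (6 * m + 9)
    have e0 : 6 * (m + 1) + 0 = 6 * m + 6 := by ring
    have e1 : 6 * (m + 1) + 1 = 6 * m + 7 := by ring
    have e2 : 6 * (m + 1) + 2 = 6 * m + 8 := by ring
    have e3 : 6 * (m + 1) + 3 = 6 * m + 9 := by ring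
    have e4 : 6 * (m + 1) + 4 = 6 * m + 10 := by ring
    have e5 : 6 * (m + 1) + 5 = 6 * m + 11 := by ring
    rw [e0] at c0; rw [e1] at c1; rw [e2] at c2; rw [e3] at c3; rw [e4] at c4; rw [e5] at c5
    rw [e4, e5, SS_succ (m + 1), pow_succ (-1 : ℤ) (m + 1)]
    simp only [Nat.add_assoc] at r0 r1 r2 r3 r4 r5
    norm_num [pat] at c0 c1 c2 c3 c4 c5 r0 r1 r2 r3 r4 r5
    rw [c0, hx, hy] at r0
    rw [c1, hx, r0] at r1
    rw [c2, r0, r1] at r2
    rw [c3, r1, r2] at r3
    rw [c4, r2, r3] at r4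
    rw [c5, r3, r4] at r5
    rw [r4, r5]
    rcases bb_cases (m + 1) with h | h <;> rw [h] <;> constructor <;> ring

theorem rec_twelve (m : ℕ) (hm : 1 ≤ m) :
    recSeq coef (12 * m) = bb (2 * m) + 4 * SS (2 * m) - 1 := by
  obtain ⟨p, rfl⟩ : ∃ p, m = p + 1 := ⟨m - 1, by omega⟩
  obtain ⟨hx, hy⟩ := rec_block (2 * p + 1)
  have r0 := rec_step (6 * (2 * p + 1) + 4)
  have c0 := coef_block (2 * (p + 1)) 0 (by norm_num)
  have e0 : 6 * (2 * p + 1) + 4 + 2 = 12 * (p + 1) := by ring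
  have e1 : 6 * (2 * (p + 1)) + 0 = 12 * (p + 1) := by ring
  have e2 : 2 * p + 1 + 1 = 2 * (p + 1) := by ring
  rw [e0] at r0
  rw [e1] at c0
  rw [e2, pow_mul] at hx hy
  rw [r0, c0, hx, hy]
  norm_num [pat]
  ring

theorem sign_pos (m : ℕ) (hm : 1 ≤ m) (h : 0 < SS (2 * m)) :
    Int.sign (recSeq coef (12 * m)) = 1 := by
  rw [Int.sign_eq_one_iff_pos, rec_twelve m hm]
  rcases bb_cases (2 * m) with h' | h' <;> omega

theorem nonneg_of_sign (m : ℕ) (hm : 1 ≤ m) (h : Int.sign (recSeq coef (12 * m)) = 1) :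
    0 ≤ SS (2 * m) := by
  rw [Int.sign_eq_one_iff_pos, rec_twelve m hm] at h
  rcases bb_cases (2 * m) with h' | h' <;> omega

theorem sq_lt_pow (j : ℕ) (hj : 5 ≤ j) : j * j < 2 ^ j := by
  induction j, hj using Nat.le_induction with
  | base => norm_num
  | succ j hj ih => rw [pow_succ]; nlinarith

theorem four_mul_le (c : ℕ) (hc : 1 ≤ c) : 4 * c ≤ 2 ^ (2 * c) := by
  induction c, hc using Nat.le_induction with
  | base => norm_num
  | succ c hc ih =>
    have : 2 ^ (2 * (c + 1)) = 4 * 2 ^ (2 * c) := by ring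
    omega

theorem exists_pos_pair (c : ℕ) (hc : 1 ≤ c) :
    ∃ m, 2 ≤ m ∧ 0 < SS (2 * (c * m)) ∧ 0 < SS (2 * (c * (m + 1))) := by
  have hj := four_mul_le c hc
  have hdm := Nat.div_add_mod (4 * 2 ^ (2 * c)) (2 * c)
  have hml : 4 * 2 ^ (2 * c) % (2 * c) < 2 * c := Nat.mod_lt _ (by omega)
  have hm3 : 3 ≤ 4 * 2 ^ (2 * c) / (2 * c) := by
    rw [Nat.le_div_iff_mul_le (by omega)]; omega
  obtain ⟨m, hm⟩ : ∃ m, 4 * 2 ^ (2 * c) / (2 * c) = m + 1 :=
    ⟨4 * 2 ^ (2 * c) / (2 * c) - 1, by omega⟩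
  rw [hm] at hdm hm3
  have e1 : 2 * c * (m + 1) = 2 * (c * m) + 2 * c := by ring
  have e2 : 2 * (c * (m + 1)) = 2 * (c * m) + 2 * c := by ring
  rw [e1] at hdm
  refine ⟨m, by omega, ?_, ?_⟩
  · apply pos_of_near (2 * c) <;> omega
  · rw [e2]; apply pos_of_near (2 * c) <;> omega

theorem no_pair (m D : ℕ) (hm : 2 ≤ m) (hD : 3 * (2 * (20 * (m + 2)) + 4) < D)
    (n1 : 0 ≤ SS (D * m)) (n2 : 0 ≤ SS (D * (m + 1))) : False := by
  have hDm : 2 * D ≤ D * m := by nlinarith
  have e : D * (m + 1) = D * m + D := by ring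
  obtain ⟨j1, a1, b1⟩ := near_of_nonneg _ (by omega) n1
  obtain ⟨j2, a2, b2⟩ := near_of_nonneg _ (by omega) n2
  have small : ∀ j, 2 ^ j ≤ D * (m + 1) + (2 * j + 4) → 3 * (2 * j + 4) < D := by
    intro j hj
    by_contra hcon
    have hcon' : D ≤ 3 * (2 * j + 4) := by omega
    have hjJ : 20 * (m + 2) ≤ j := by omega
    have h0 := sq_lt_pow j (by omega)
    have h1 : D * (m + 1) ≤ 3 * (2 * j + 4) * (m + 1) := Nat.mul_le_mul_right _ hcon'
    have h2 : 20 * (m + 2) * j ≤ j * j := Nat.mul_le_mul_right _ hjJ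
    have h3 : 3 * (2 * j + 4) * (m + 1) ≤ 3 * (2 * j + j) * (m + 1) := by
      apply Nat.mul_le_mul_right; omega
    nlinarith
  have f1 := small j1 (by omega)
  have f2 := small j2 b2
  rcases le_or_gt j2 j1 with h | h
  · have : 2 ^ j2 ≤ 2 ^ j1 := Nat.pow_le_pow_right (by norm_num) h
    omega
  · have : 2 ^ (j1 + 1) ≤ 2 ^ j2 := Nat.pow_le_pow_right (by norm_num) h
    rw [pow_succ] at this
    omega

theorem not_invariant (c Q : ℕ) (hc : 1 ≤ c) (hQ : 2 ≤ Q)
    (h : ∀ n, Int.sign (recSeq coef (c * n)) = Int.sign (recSeq coef (c * (Q * n)))) : False := by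
  have hiter : ∀ t n, Int.sign (recSeq coef (c * n)) =
      Int.sign (recSeq coef (c * (Q ^ t * n))) := by
    intro t
    induction t with
    | zero => intro n; simp
    | succ t ih =>
      intro n
      have e : Q ^ (t + 1) * n = Q * (Q ^ t * n) := by ring
      rw [ih n, h (Q ^ t * n), e]
  obtain ⟨m, hm, p1, p2⟩ := exists_pos_pair c hc
  have transfer : ∀ t u, 1 ≤ u → 0 < SS (2 * (c * u)) → 0 ≤ SS (2 * (c * Q ^ t) * u) := by
    intro t u hu hp
    have hQt : 1 ≤ Q ^ t := Nat.one_le_pow _ _ (by omega)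
    have s1 := sign_pos _ (Nat.mul_pos hc hu) hp
    have h' := hiter t (12 * u)
    have e1 : c * (12 * u) = 12 * (c * u) := by ring
    have e2 : c * (Q ^ t * (12 * u)) = 12 * (c * Q ^ t * u) := by ring
    rw [e1, e2, s1] at h'
    have := nonneg_of_sign (c * Q ^ t * u) (Nat.mul_pos (Nat.mul_pos hc hQt) hu) h'.symm
    have e3 : 2 * (c * Q ^ t * u) = 2 * (c * Q ^ t) * u := by ring
    rwa [e3] at this
  have hD : ∀ t : ℕ, t < 2 * (c * Q ^ t) := by
    intro t
    have h1 : t < 2 ^ t := Nat.lt_two_pow_self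
    have h2 : 2 ^ t ≤ Q ^ t := Nat.pow_le_pow_left hQ t
    have h3 : Q ^ t ≤ c * Q ^ t := Nat.le_mul_of_pos_left _ hc
    omega
  exact no_pair m _ hm (hD _) (transfer _ m (by omega) p1) (transfer _ (m + 1) (by omega) p2)

theorem not_automatic : ¬ IsAutomatic (fun n => Int.sign (recSeq coef n)) := by
  rintro ⟨q, hq, -, hfin⟩
  have hmaps : Set.MapsTo (fun e : ℕ => fun n => Int.sign (recSeq coef (q ^ e * n + 0)))
      Set.univ (kernel q (fun n => Int.sign (recSeq coef n))) := by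
    intro e _
    exact ⟨e, 0, by positivity, rfl⟩
  obtain ⟨e1, -, e2, -, hlt, heq⟩ :=
    Set.infinite_univ.exists_lt_map_eq_of_mapsTo hmaps hfin
  obtain ⟨d, rfl⟩ : ∃ d, e2 = e1 + (d + 1) := ⟨e2 - e1 - 1, by omega⟩
  refine not_invariant (q ^ e1) (q ^ (d + 1)) (Nat.one_le_pow _ _ (by omega)) ?_ ?_
  · have : 1 ≤ q ^ d := Nat.one_le_pow _ _ (by omega)
    rw [pow_succ]; nlinarith
  · intro n
    have := congrFun heq n
    simp only [Nat.add_zero] at this
    rw [this, pow_add, mul_assoc]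

end Pool.Agent.Lib.MP_c55a01_nt
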